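import Pool.Agent.Lib_MP_f63283_co.Main

set_option autoImplicit false

/-!
MP_f63283_co: the bound for sets of integer vectors, in every class modulo the lattice of a maximal basis and for sets in a
sublattice.
-/

namespace Pool.Agent.Lib_MP_f63283_ins

open Finset Matrix Pool.Agent.Lib_MP_f63283_co

/-- A finite set `S` of vectors of `ℤ ^ m` spans `ℝ ^ m`, and `|det (v 1, ..., v m)| ≤ Δ` for all `v 1, ..., v m` in `S`. -/
def DeltaModular (Δ m : ℕ) (S : Finset (Fin m → ℤ)) : Prop :=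
  Submodule.span ℝ {x : Fin m → ℝ | ∃ v ∈ S, ∀ i, x i = (v i : ℝ)} = ⊤ ∧
    ∀ v : Fin m → (Fin m → ℤ), (∀ i, v i ∈ S) → |(Matrix.of v).det| ≤ (Δ : ℤ)

theorem F_three_succ_le (m : ℕ) (hm : 1 ≤ m) : F m 3 + 1 ≤ 5 * m ^ 2 := by
  induction m, hm using Nat.le_induction with
  | base => decide
  | succ m hm ih =>
    have h : F (m + 1) 3 = F m 3 + 3 * F m 2 := rfl
    rw [h, F_two]
    nlinarith

/-- the bound in a class -/
theorem class_bound {m n : ℕ} (A : Matrix (Fin m) (Fin n) ℤ) (hinj : Function.Injective A.transpose)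
    (s₀ : Fin m → Fin n) (hB0 : (A.submatrix id s₀).det ≠ 0)
    (hA : ∀ s : Fin m → Fin n, |(A.submatrix id s).det| ≤ |(A.submatrix id s₀).det|) (x : Fin m → ℤ)
    (J : Finset (Fin n))
    (hJ : ∀ j ∈ J, ∃ z : Fin m → ℤ, A.transpose j - x = (A.submatrix id s₀).mulVec z) :
    J.card < 27 ^ 4 * (F m 3 + 1) := by
  classical
  rcases J.eq_empty_or_nonempty with hJe | ⟨j₀, hj₀⟩
  · rw [hJe, Finset.card_empty]
    positivity
  obtain ⟨B, hB⟩ : ∃ B, B = A.submatrix id s₀ := ⟨_, rfl⟩
  rw [← hB] at hB0 hA hJ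
  set Aq : Matrix (Fin m) (Fin n) ℚ := A.map (Int.cast : ℤ → ℚ) with hAq
  set Bq : Matrix (Fin m) (Fin m) ℚ := B.map (Int.cast : ℤ → ℚ) with hBq
  have hBqdet : Bq.det = ((B.det : ℤ) : ℚ) := by
    rw [Int.cast_det]
  have hBqne : Bq.det ≠ 0 := by
    rw [hBqdet]
    exact_mod_cast hB0
  have hBqunit : IsUnit Bq.det := isUnit_iff_ne_zero.mpr hBqne
  set S : Matrix (Fin m) (Fin n) ℚ := Bq⁻¹ * Aq with hSdef
  have hsub : ∀ s : Fin m → Fin n, S.submatrix id s = Bq⁻¹ * Aq.submatrix id s := by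
    intro s
    rw [hSdef]
    ext i j
    simp [Matrix.mul_apply]
  have h0 : S.submatrix id s₀ = 1 := by
    rw [hsub]
    have : Aq.submatrix id s₀ = Bq := by
      ext i j; simp [hAq, hBq, hB]
    rw [this, Matrix.nonsing_inv_mul _ hBqunit]
  have hfull : ∀ s : Fin m → Fin n, |(S.submatrix id s).det| ≤ 1 := by
    intro s
    rw [hsub, Matrix.det_mul, abs_mul, Matrix.det_nonsing_inv, Ring.inverse_eq_inv', abs_inv]
    have h1 : |(Aq.submatrix id s).det| ≤ |Bq.det| := by
      have h2 : (Aq.submatrix id s).det = (((A.submatrix id s).det : ℤ) : ℚ) := by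
        rw [Int.cast_det]; rfl
      rw [h2, hBqdet, ← Int.cast_abs, ← Int.cast_abs]
      exact_mod_cast hA s
    rw [inv_mul_le_iff₀ (abs_pos.mpr hBqne)]
    linarith
  have hS : ∀ (ι : Type) [Fintype ι] [DecidableEq ι] (ρ : ι → Fin m) (c : ι → Fin n),
      |(S.submatrix ρ c).det| ≤ 1 := by
    intro ι _ _ ρ c
    exact minor_le S s₀ h0 hfull ρ c
  choose! z hz using hJ
  apply coset_bound S hS J (fun j => z j - z j₀) j₀
  · intro j hj i
    have h1 : A.transpose j - A.transpose j₀ = B.mulVec (z j - z j₀) := by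
      rw [Matrix.mulVec_sub, ← hz j hj, ← hz j₀ hj₀]
      abel
    have h2 : (fun k => Aq k j - Aq k j₀) = Bq.mulVec (fun k => (((z j - z j₀) k : ℤ) : ℚ)) := by
      funext k
      have h3 := congrFun h1 k
      simp only [Pi.sub_apply, Matrix.transpose_apply, Matrix.mulVec, dotProduct] at h3
      simp only [hAq, hBq, Matrix.map_apply, Matrix.mulVec, dotProduct, Pi.sub_apply]
      exact_mod_cast h3
    have h4 : (fun i => S i j - S i j₀) = fun k => (((z j - z j₀) k : ℤ) : ℚ) := by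
      have h5 : (fun i => S i j - S i j₀) = Bq⁻¹.mulVec (fun k => Aq k j - Aq k j₀) := by
        funext i
        simp only [hSdef, Matrix.mul_apply, Matrix.mulVec, dotProduct, mul_sub,
          Finset.sum_sub_distrib]
      rw [h5, h2, Matrix.mulVec_mulVec, Matrix.nonsing_inv_mul _ hBqunit, Matrix.one_mulVec]
    exact congrFun h4 i
  · intro j hj j' hj' hzz
    apply hinj
    have h1 : z j = z j' := sub_left_injective hzz
    have h2 := hz j hj
    rw [h1, ← hz j' hj'] at h2
    exact sub_left_injective h2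

/-- a set spanning `ℝ ^ m` contains `m` vectors with determinant not `0` -/
theorem exists_det_ne {m : ℕ} (S : Finset (Fin m → ℤ))
    (hS : Submodule.span ℝ {x : Fin m → ℝ | ∃ v ∈ S, ∀ i, x i = (v i : ℝ)} = ⊤) :
    ∃ v : Fin m → (Fin m → ℤ), (∀ i, v i ∈ S) ∧ (Matrix.of v).det ≠ 0 := by
  classical
  obtain ⟨T, hT, hspan, hli⟩ := exists_linearIndependent ℝ {x : Fin m → ℝ | ∃ v ∈ S, ∀ i, x i = (v i : ℝ)}
  rw [hS] at hspan
  let B : Module.Basis T ℝ (Fin m → ℝ) := Module.Basis.mk hli (by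
    rw [Subtype.range_coe, hspan])
  haveI : Fintype T := FiniteDimensional.fintypeBasisIndex B
  have hcard : Fintype.card T = m := by
    rw [← Module.finrank_eq_card_basis B, Module.finrank_fin_fun]
  let e : Fin m ≃ T := (Fintype.equivFinOfCardEq hcard).symm
  have hv : ∀ i : Fin m, ∃ v ∈ S, ∀ k, (e i : Fin m → ℝ) k = (v k : ℝ) := fun i => hT (e i).2
  choose v hvS hvk using hv
  refine ⟨v, hvS, ?_⟩
  have hli2 : LinearIndependent ℝ (fun i : Fin m => (e i : Fin m → ℝ)) := hli.comp e e.injective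
  have hM : (fun i : Fin m => (e i : Fin m → ℝ)) = ((Matrix.of v).map (Int.cast : ℤ → ℝ)).row := by
    funext i k
    rw [hvk]
    rfl
  rw [hM, Matrix.linearIndependent_rows_iff_isUnit, Matrix.isUnit_iff_isUnit_det] at hli2
  have hdet : ((Matrix.of v).map (Int.cast : ℤ → ℝ)).det = (((Matrix.of v).det : ℤ) : ℝ) := by
    rw [Int.cast_det]
  rw [hdet] at hli2
  intro h
  rw [h] at hli2
  simp at hli2

/-- a basis from `S` of maximal determinant -/
theorem exists_max {m : ℕ} (S : Finset (Fin m → ℤ))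
    (hS : Submodule.span ℝ {x : Fin m → ℝ | ∃ v ∈ S, ∀ i, x i = (v i : ℝ)} = ⊤) :
    ∃ b : Fin m → (Fin m → ℤ), (∀ i, b i ∈ S) ∧ (Matrix.of b).det ≠ 0 ∧
      ∀ v : Fin m → (Fin m → ℤ), (∀ i, v i ∈ S) → |(Matrix.of v).det| ≤ |(Matrix.of b).det| := by
  classical
  obtain ⟨w, hw, hw0⟩ := exists_det_ne S hS
  haveI : Nonempty (Fin m → S) := ⟨fun i => ⟨w i, hw i⟩⟩
  obtain ⟨b, hb⟩ := Finite.exists_max (fun v : Fin m → S => |(Matrix.of fun i => (v i : Fin m → ℤ)).det|)
  refine ⟨fun i => (b i : Fin m → ℤ), fun i => (b i).2, ?_, ?_⟩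
  · have h := hb fun i => ⟨w i, hw i⟩
    have h1 : 0 < |(Matrix.of fun i => (w i : Fin m → ℤ)).det| := abs_pos.mpr hw0
    exact abs_pos.mp (lt_of_lt_of_le h1 h)
  · intro v hv
    exact hb fun i => ⟨v i, hv i⟩

/-- the bound in the classes modulo the lattice of a maximal basis -/
theorem coset_bound_set {m : ℕ} (S : Finset (Fin m → ℤ)) (b : Fin m → (Fin m → ℤ)) (hbS : ∀ i, b i ∈ S)
    (hb0 : (Matrix.of b).det ≠ 0)
    (hmax : ∀ v : Fin m → (Fin m → ℤ), (∀ i, v i ∈ S) → |(Matrix.of v).det| ≤ |(Matrix.of b).det|)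
    (x : Fin m → ℤ) (J : Finset (Fin m → ℤ)) (hJS : J ⊆ S)
    (hJ : ∀ v ∈ J, v - x ∈ Submodule.span ℤ (Set.range b)) : J.card < 27 ^ 4 * (F m 3 + 1) := by
  classical
  let e : Fin S.card ≃ S := S.equivFin.symm
  let A : Matrix (Fin m) (Fin S.card) ℤ := Matrix.of fun i j => (e j : Fin m → ℤ) i
  have hAt : ∀ j, A.transpose j = (e j : Fin m → ℤ) := fun j => rfl
  have hinj : Function.Injective A.transpose := by
    intro j j' h
    rw [hAt, hAt] at h
    exact e.injective (Subtype.ext h)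
  have hsub : ∀ s : Fin m → Fin S.card,
      (A.submatrix id s).det = (Matrix.of fun i => (e (s i) : Fin m → ℤ)).det := by
    intro s
    rw [← Matrix.det_transpose]
    rfl
  let s₀ : Fin m → Fin S.card := fun i => e.symm ⟨b i, hbS i⟩
  have hs₀ : (A.submatrix id s₀).transpose = Matrix.of b := by
    ext i k
    show (e (e.symm ⟨b i, hbS i⟩) : Fin m → ℤ) k = b i k
    rw [Equiv.apply_symm_apply]
  have hdet0 : (A.submatrix id s₀).det = (Matrix.of b).det := by
    rw [← Matrix.det_transpose, hs₀]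
  have hA : ∀ s : Fin m → Fin S.card, |(A.submatrix id s).det| ≤ |(A.submatrix id s₀).det| := by
    intro s
    rw [hsub, hdet0]
    exact hmax _ fun i => (e (s i)).2
  have hJ2 : ∀ j ∈ J.attach.image (fun v => e.symm ⟨v.1, hJS v.2⟩),
      ∃ z : Fin m → ℤ, A.transpose j - x = (A.submatrix id s₀).mulVec z := by
    intro j hj
    obtain ⟨v, _, rfl⟩ := Finset.mem_image.mp hj
    have h1 : A.transpose (e.symm ⟨v.1, hJS v.2⟩) = v.1 := by
      rw [hAt, Equiv.apply_symm_apply]
    rw [h1]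
    have h2 := hJ v.1 v.2
    rw [Submodule.mem_span_range_iff_exists_fun] at h2
    obtain ⟨c, hc⟩ := h2
    refine ⟨c, ?_⟩
    rw [← hc, ← Matrix.vecMul_transpose, hs₀]
    funext k
    simp only [Matrix.vecMul, dotProduct, Matrix.of_apply, Finset.sum_apply, Pi.smul_apply, smul_eq_mul]
  have h := class_bound A hinj s₀ (by rw [hdet0]; exact hb0) hA x _ hJ2
  rw [Finset.card_image_of_injective, Finset.card_attach] at h
  · exact h
  · intro v w hvw
    have h1 := e.symm.injective hvw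
    exact Subtype.ext (congrArg (fun y : S => (y : Fin m → ℤ)) h1)

/-- the index of the lattice of `b` -/
theorem index_span {m : ℕ} (b : Fin m → (Fin m → ℤ)) (hb0 : (Matrix.of b).det ≠ 0) :
    (Submodule.span ℤ (Set.range b)).toAddSubgroup.index = (Matrix.of b).det.natAbs := by
  have h1 := card_quot (Matrix.of b).transpose (by rw [Matrix.det_transpose]; exact hb0)
  rw [Matrix.det_transpose] at h1
  rw [← h1]
  have h2 : LinearMap.range (Matrix.toLin' (Matrix.of b).transpose) = Submodule.span ℤ (Set.range b) := by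
    rw [Matrix.range_toLin']
    rfl
  rw [h2]
  rfl

/-- the bound for sets in a sublattice -/
theorem sublattice_bound {m Δ : ℕ} (hm : 1 ≤ m) (S : Finset (Fin m → ℤ)) (hS : DeltaModular Δ m S)
    (Λ : AddSubgroup (Fin m → ℤ)) (hΛ : ∀ v ∈ S, v ∈ Λ) :
    Λ.index ≠ 0 ∧ S.card * Λ.index ≤ 27 ^ 4 * 5 * m ^ 2 * Δ := by
  classical
  obtain ⟨b, hbS, hb0, hmax⟩ := exists_max S hS.1
  obtain ⟨L, hL⟩ : ∃ L, L = (Submodule.span ℤ (Set.range b)).toAddSubgroup := ⟨_, rfl⟩
  have hidx : L.index = (Matrix.of b).det.natAbs := by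
    rw [hL]
    exact index_span b hb0
  have hLΛ : L ≤ Λ := by
    intro v hv
    rw [hL, Submodule.mem_toAddSubgroup, Submodule.mem_span_range_iff_exists_fun] at hv
    obtain ⟨c, hc⟩ := hv
    rw [← hc]
    exact Λ.sum_mem fun i _ => Λ.zsmul_mem (hΛ _ (hbS i)) _
  have hmul := AddSubgroup.relIndex_mul_index hLΛ
  have hne : L.index ≠ 0 := by
    rw [hidx]
    exact Int.natAbs_ne_zero.mpr hb0
  have hΛ0 : Λ.index ≠ 0 := by
    intro h
    rw [h, mul_zero] at hmul
    exact hne hmul.symm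
  have hrel : L.relIndex Λ ≠ 0 := by
    intro h
    rw [h, zero_mul] at hmul
    exact hne hmul.symm
  refine ⟨hΛ0, ?_⟩
  have hle : L.index ≤ Δ := by
    rw [hidx]
    have h1 := hS.2 b hbS
    rw [Int.abs_eq_natAbs] at h1
    exact_mod_cast h1
  -- pigeonhole
  haveI : Finite (Λ ⧸ L.addSubgroupOf Λ) := Nat.finite_of_card_ne_zero hrel
  haveI : Fintype (Λ ⧸ L.addSubgroupOf Λ) := Fintype.ofFinite _
  have hQ : Fintype.card (Λ ⧸ L.addSubgroupOf Λ) = L.relIndex Λ := by
    rw [← Nat.card_eq_fintype_card]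
    rfl
  let cl : S → Λ ⧸ L.addSubgroupOf Λ := fun v => QuotientAddGroup.mk ⟨v.1, hΛ v.1 v.2⟩
  have hcard : (univ : Finset S).card ≤ 27 ^ 4 * (F m 3 + 1) * (univ : Finset (Λ ⧸ L.addSubgroupOf Λ)).card := by
    apply Finset.card_le_mul_card_image_of_maps_to (f := cl) (fun _ _ => mem_univ _)
    intro q _
    by_cases hemp : ((univ : Finset S).filter (fun v => cl v = q)).Nonempty
    · obtain ⟨x, hx⟩ := hemp
      have hxq : cl x = q := (mem_filter.mp hx).2
      have h2 := coset_bound_set S b hbS hb0 hmax x.1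
        (((univ : Finset S).filter (fun v => cl v = q)).map (Function.Embedding.subtype _)) (by
          intro v hv
          obtain ⟨w, _, rfl⟩ := Finset.mem_map.mp hv
          exact w.2) (by
          intro v hv
          obtain ⟨w, hw, rfl⟩ := Finset.mem_map.mp hv
          have hwq : cl w = q := (mem_filter.mp hw).2
          have h3 : cl x = cl w := by rw [hxq, hwq]
          have h4 := QuotientAddGroup.eq.mp h3
          rw [AddSubgroup.mem_addSubgroupOf, hL, Submodule.mem_toAddSubgroup] at h4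
          have h5 : (w.1 : Fin m → ℤ) - x.1 = ((-(⟨x.1, hΛ x.1 x.2⟩ : Λ) + ⟨w.1, hΛ w.1 w.2⟩ : Λ) : Fin m → ℤ) := by
            push_cast
            abel
          show (w.1 : Fin m → ℤ) - x.1 ∈ _
          rw [h5]
          exact h4)
      rw [Finset.card_map] at h2
      exact h2.le
    · rw [Finset.not_nonempty_iff_eq_empty] at hemp
      rw [hemp, Finset.card_empty]
      exact Nat.zero_le _
  rw [Finset.card_univ, Finset.card_univ, hQ, Fintype.card_coe] at hcard
  calc S.card * Λ.index ≤ 27 ^ 4 * (F m 3 + 1) * L.relIndex Λ * Λ.index := Nat.mul_le_mul_right _ hcard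
    _ = 27 ^ 4 * (F m 3 + 1) * L.index := by rw [mul_assoc, hmul]
    _ ≤ 27 ^ 4 * (5 * m ^ 2) * Δ := by
        exact Nat.mul_le_mul (Nat.mul_le_mul_left _ (F_three_succ_le m hm)) hle
    _ = 27 ^ 4 * 5 * m ^ 2 * Δ := by ring

/-- the unit vectors -/
theorem unit_modular {m Δ : ℕ} (hΔ : 1 ≤ Δ) :
    DeltaModular Δ m (Finset.univ.image fun i : Fin m => (Pi.single i 1 : Fin m → ℤ)) := by
  classical
  refine ⟨?_, ?_⟩
  · rw [eq_top_iff, ← (Pi.basisFun ℝ (Fin m)).span_eq]
    apply Submodule.span_mono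
    rintro _ ⟨i, rfl⟩
    refine ⟨Pi.single i 1, Finset.mem_image_of_mem _ (Finset.mem_univ i), fun k => ?_⟩
    rw [Pi.basisFun_apply]
    by_cases h : k = i
    · subst h
      simp
    · simp [Pi.single_eq_of_ne h]
  · intro v hv
    have h1 : ∀ i, ∃ k : Fin m, (Pi.single k 1 : Fin m → ℤ) = v i := by
      intro i
      obtain ⟨k, _, hk⟩ := Finset.mem_image.mp (hv i)
      exact ⟨k, hk⟩
    choose σ hσ using h1
    by_cases hinj : Function.Injective σ
    · have hb : Function.Bijective σ := Finite.injective_iff_bijective.mp hinj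
      have hM : Matrix.of v = (1 : Matrix (Fin m) (Fin m) ℤ).submatrix (Equiv.ofBijective σ hb) id := by
        ext i k
        rw [Matrix.of_apply, ← hσ i, Matrix.submatrix_apply, Equiv.ofBijective_apply, id, Matrix.one_apply,
          Pi.single_apply]
        simp only [eq_comm]
      have hΔ' : (1 : ℤ) ≤ (Δ : ℤ) := by exact_mod_cast hΔ
      rw [hM, Matrix.det_permute, Matrix.det_one, mul_one]
      rcases Int.units_eq_one_or (Equiv.Perm.sign (Equiv.ofBijective σ hb)) with h | h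
      · rw [h]
        simpa using hΔ'
      · rw [h]
        simpa using hΔ'
    · rw [Function.Injective] at hinj
      push Not at hinj
      obtain ⟨i, j, hij, hne⟩ := hinj
      have : (Matrix.of v).det = 0 := by
        apply Matrix.det_zero_of_row_eq hne
        show v i = v j
        rw [← hσ i, ← hσ j, hij]
      rw [this, abs_zero]
      positivity

end Pool.Agent.Lib_MP_f63283_ins
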